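import Pool.Agent.Helper587.MB.Basic

set_option autoImplicit false

/-! From an energy bound with weights to the Laplacian bound. -/

namespace Pool.Agent.Helper587.MB

open Finset

variable {n : ℕ}

/-- If `|a| ≤ |a + r|`, one of `lam = 0, 1` is good. -/
theorem edge_aux (N : ℕ) (M u w s0 s1 : ℝ) (hM0 : 0 ≤ M) (h0 : M ≤ s0) (h1 : M ≤ s1) :
    M ^ N * w ^ 2 ≤ 4 * (s0 ^ N * u ^ 2 + s1 ^ N * (u + w) ^ 2) := by
  have hw : w ^ 2 ≤ 4 * (u ^ 2 + (u + w) ^ 2) := by nlinarith [sq_nonneg (2 * u + w)]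
  have e0 : M ^ N ≤ s0 ^ N := pow_le_pow_left₀ hM0 h0 N
  have e1 : M ^ N ≤ s1 ^ N := pow_le_pow_left₀ hM0 h1 N
  have hMN : 0 ≤ M ^ N := pow_nonneg hM0 N
  calc M ^ N * w ^ 2 ≤ M ^ N * (4 * (u ^ 2 + (u + w) ^ 2)) := mul_le_mul_of_nonneg_left hw hMN
    _ = 4 * (M ^ N * u ^ 2 + M ^ N * (u + w) ^ 2) := by ring
    _ ≤ _ := by gcongr

theorem edge_ineq1 (N : ℕ) (a b α β : ℝ) :
    |a| ^ N * (α - β) ^ 2 ≤
      4 * ((max |a| |b|) ^ N * (a - b) ^ 2
        + (max |a + α| |b + β|) ^ N * ((a + α) - (b + β)) ^ 2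
        + (max |a - α| |b - β|) ^ N * ((a - α) - (b - β)) ^ 2) := by
  have hp : 0 ≤ (max |a + α| |b + β|) ^ N * ((a + α) - (b + β)) ^ 2 := by positivity
  have hm : 0 ≤ (max |a - α| |b - β|) ^ N * ((a - α) - (b - β)) ^ 2 := by positivity
  rcases le_or_gt |a| |a + α| with h | h
  · have := edge_aux N |a| (a - b) (α - β) (max |a| |b|) (max |a + α| |b + β|) (abs_nonneg _)
      (le_max_left _ _) (h.trans (le_max_left _ _))
    have e : (a - b + (α - β)) ^ 2 = ((a + α) - (b + β)) ^ 2 := by ring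
    rw [e] at this
    linarith
  · have h' : |a| ≤ |a - α| := by
      have : 2 * |a| ≤ |a + α| + |a - α| := by
        calc 2 * |a| = |(a + α) + (a - α)| := by
              rw [show (a + α) + (a - α) = 2 * a by ring, abs_mul]; norm_num
          _ ≤ _ := abs_add_le _ _
      linarith
    have := edge_aux N |a| (a - b) (-(α - β)) (max |a| |b|) (max |a - α| |b - β|) (abs_nonneg _)
      (le_max_left _ _) (h'.trans (le_max_left _ _))
    have e : (a - b + -(α - β)) ^ 2 = ((a - α) - (b - β)) ^ 2 := by ring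
    rw [e, neg_sq] at this
    linarith

theorem edge_ineq (N : ℕ) (a b α β : ℝ) :
    (max |a| |b|) ^ N * (α - β) ^ 2 ≤
      4 * ((max |a| |b|) ^ N * (a - b) ^ 2
        + (max |a + α| |b + β|) ^ N * ((a + α) - (b + β)) ^ 2
        + (max |a - α| |b - β|) ^ N * ((a - α) - (b - β)) ^ 2) := by
  rcases le_total |b| |a| with h | h
  · rw [max_eq_left h]
    have := edge_ineq1 N a b α β
    rwa [max_eq_left h] at this
  · have := edge_ineq1 N b a β α
    rw [max_comm |a| |b|, max_comm |a + α| |b + β|, max_comm |a - α| |b - β|,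
      max_eq_left h]
    rw [max_eq_left h] at this
    have e1 : (β - α) ^ 2 = (α - β) ^ 2 := by ring
    have e2 : (b - a) ^ 2 = (a - b) ^ 2 := by ring
    have e3 : ((b + β) - (a + α)) ^ 2 = ((a + α) - (b + β)) ^ 2 := by ring
    have e4 : ((b - β) - (a - α)) ^ 2 = ((a - α) - (b - β)) ^ 2 := by ring
    rw [e1, e2, e3, e4] at this
    exact this

/-- Weighted energy hypothesis -/
def Good (n d k : ℕ) (K : ℝ) : Prop :=
  ∀ h : (Fin n → Bool) → ℝ, HasDeg d h →
    ∑ i, ∑ x, mx i h x ^ (2 * k - 2) * D i h x ^ 2 ≤ K * ∑ x, h x ^ (2 * k)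

theorem pow_add_le (k : ℕ) (hk : 1 ≤ k) (a b : ℝ) :
    (a + b) ^ (2 * k) ≤ 4 ^ k * (a ^ (2 * k) + b ^ (2 * k)) := by
  have h1 : (a + b) ^ (2 * k) = |a + b| ^ (2 * k) := by
    rw [pow_mul, pow_mul, sq_abs]
  have h2 : |a + b| ^ (2 * k) ≤ (|a| + |b|) ^ (2 * k) :=
    pow_le_pow_left₀ (abs_nonneg _) (abs_add_le _ _) _
  have h3 := add_pow_le (abs_nonneg a) (abs_nonneg b) (2 * k)
  have h4 : |a| ^ (2 * k) = a ^ (2 * k) := by rw [pow_mul, pow_mul, sq_abs]
  have h5 : |b| ^ (2 * k) = b ^ (2 * k) := by rw [pow_mul, pow_mul, sq_abs]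
  rw [h4, h5] at h3
  have h6 : (2 : ℝ) ^ (2 * k - 1) ≤ 4 ^ k := by
    calc (2 : ℝ) ^ (2 * k - 1) ≤ 2 ^ (2 * k) :=
          pow_le_pow_right₀ (by norm_num) (by omega)
      _ = 4 ^ k := by rw [pow_mul]; norm_num
  have h7 : 0 ≤ a ^ (2 * k) + b ^ (2 * k) := by
    have e1 : 0 ≤ a ^ (2 * k) := by rw [pow_mul]; positivity
    have e2 : 0 ≤ b ^ (2 * k) := by rw [pow_mul]; positivity
    linarith
  rw [h1]
  exact h2.trans (h3.trans (mul_le_mul_of_nonneg_right h6 h7))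

/-- the mixed energy bound -/
theorem mixed {d k : ℕ} {K : ℝ} (hk : 1 ≤ k) (hK : 0 ≤ K) (hgood : Good n d k K)
    {g h : (Fin n → Bool) → ℝ} (hg : HasDeg d g) (hh : HasDeg d h) :
    ∑ i, ∑ x, mx i g x ^ (2 * k - 2) * D i h x ^ 2 ≤
      4 * K * (1 + 2 * 4 ^ k) * (∑ x, g x ^ (2 * k) + ∑ x, h x ^ (2 * k)) := by
  have hp := hgood _ (hg.add hh)
  have hm := hgood _ (hg.add (hh.smul (-1)))
  have h0 := hgood _ hg
  have hnn : ∀ f : (Fin n → Bool) → ℝ, 0 ≤ ∑ x, f x ^ (2 * k) := by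
    intro f
    apply Finset.sum_nonneg
    intro x _
    rw [pow_mul]; positivity
  have key : ∑ i, ∑ x, mx i g x ^ (2 * k - 2) * D i h x ^ 2 ≤
      4 * (∑ i, ∑ x, mx i g x ^ (2 * k - 2) * D i g x ^ 2
        + ∑ i, ∑ x, mx i (fun x => g x + h x) x ^ (2 * k - 2) * D i (fun x => g x + h x) x ^ 2
        + ∑ i, ∑ x, mx i (fun x => g x + (-1) * h x) x ^ (2 * k - 2)
            * D i (fun x => g x + (-1) * h x) x ^ 2) := by
    rw [← Finset.sum_add_distrib, ← Finset.sum_add_distrib, Finset.mul_sum]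
    apply Finset.sum_le_sum
    intro i _
    rw [← Finset.sum_add_distrib, ← Finset.sum_add_distrib, Finset.mul_sum]
    apply Finset.sum_le_sum
    intro x _
    have := edge_ineq (2 * k - 2) (g x) (g (flip i x)) (h x) (h (flip i x))
    simp only [mx, D]
    have e1 : g x + -1 * h x = g x - h x := by ring
    have e2 : g (flip i x) + -1 * h (flip i x) = g (flip i x) - h (flip i x) := by ring
    rw [e1, e2]
    exact this
  have b1 : ∑ x, (g x + h x) ^ (2 * k) ≤ 4 ^ k * (∑ x, g x ^ (2 * k) + ∑ x, h x ^ (2 * k)) := by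
    rw [← Finset.sum_add_distrib, Finset.mul_sum]
    exact Finset.sum_le_sum (fun x _ => pow_add_le k hk _ _)
  have b2 : ∑ x, (g x + (-1) * h x) ^ (2 * k) ≤
      4 ^ k * (∑ x, g x ^ (2 * k) + ∑ x, h x ^ (2 * k)) := by
    rw [← Finset.sum_add_distrib, Finset.mul_sum]
    refine Finset.sum_le_sum (fun x _ => ?_)
    have := pow_add_le k hk (g x) ((-1) * h x)
    have e : ((-1) * h x) ^ (2 * k) = h x ^ (2 * k) := by
      rw [mul_pow, pow_mul]; norm_num
    rwa [e] at this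
  have hX := hnn g
  have hY := hnn h
  refine key.trans ?_
  have hp' := hp.trans (mul_le_mul_of_nonneg_left b1 hK)
  have hm' := hm.trans (mul_le_mul_of_nonneg_left b2 hK)
  have hY' : 0 ≤ K * ∑ x, h x ^ (2 * k) := mul_nonneg hK hY
  nlinarith

/-- closing argument -/
theorem closing {d k : ℕ} {K : ℝ} (hk : 1 ≤ k) (hK : 0 < K) (hgood : Good n d k K)
    (c : Finset (Fin n) → ℝ) (hc : ∀ S, d < S.card → c S = 0) :
    ∑ x, fn (num c) x ^ (2 * k) ≤
      ((2 * k - 1) * (2 * (1 + 2 * 4 ^ k)) * K) ^ (2 * k) * ∑ x, fn c x ^ (2 * k) := by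
  set g : (Fin n → Bool) → ℝ := fn (num c) with hgdef
  set f : (Fin n → Bool) → ℝ := fn c with hfdef
  have hf : HasDeg d f := ⟨c, hc, rfl⟩
  have hg : HasDeg d g := ⟨num c, fun S hS => by simp [num, hc S hS], rfl⟩
  set κ : ℝ := 2 * k - 1 with hκ
  have hk' : (1 : ℝ) ≤ k := by exact_mod_cast hk
  have hκ1 : 1 ≤ κ := by rw [hκ]; linarith
  set B : ℝ := 4 * (1 + 2 * 4 ^ k) with hB
  have hB1 : 1 ≤ B := by
    have : (0 : ℝ) < 4 ^ k := by positivity
    rw [hB]; linarith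
  have hC : κ * (2 * (1 + 2 * 4 ^ k)) * K = κ * K * B / 2 := by rw [hB]; ring
  rw [hC]
  set R : ℝ := κ * K * B / 2 with hR
  have hRpos : 0 < R := by rw [hR]; positivity
  set X : ℝ := ∑ x, g x ^ (2 * k) with hX
  set Y : ℝ := ∑ x, f x ^ (2 * k) with hY
  have hXnn : 0 ≤ X := Finset.sum_nonneg (fun x _ => by rw [pow_mul]; positivity)
  have hYnn : 0 ≤ Y := Finset.sum_nonneg (fun x _ => by rw [pow_mul]; positivity)
  -- mixed bound for R f
  have hmix := mixed hk hK.le hgood hg (hf.smul R)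
  have hmix' : R ^ 2 * ∑ i, ∑ x, mx i g x ^ (2 * k - 2) * D i f x ^ 2 ≤
      K * B * (X + R ^ (2 * k) * Y) := by
    have e1 : ∑ i, ∑ x, mx i g x ^ (2 * k - 2) * D i (fun x => R * f x) x ^ 2
        = R ^ 2 * ∑ i, ∑ x, mx i g x ^ (2 * k - 2) * D i f x ^ 2 := by
      rw [Finset.mul_sum]
      refine Finset.sum_congr rfl (fun i _ => ?_)
      rw [Finset.mul_sum]
      refine Finset.sum_congr rfl (fun x _ => ?_)
      simp only [D]; ring
    have e2 : ∑ x, (R * f x) ^ (2 * k) = R ^ (2 * k) * Y := by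
      rw [hY, Finset.mul_sum]
      exact Finset.sum_congr rfl (fun x _ => mul_pow _ _ _)
    rw [e1, e2] at hmix
    calc _ ≤ _ := hmix
      _ = K * B * (X + R ^ (2 * k) * Y) := by rw [hB]; ring
  have hE := hgood g hg
  -- main chain
  have hmain : X = (1 / 4) * ∑ i, ∑ x, D i (fun x => g x ^ (2 * k - 1)) x * D i f x := by
    rw [← ibp (fun x => g x ^ (2 * k - 1)) c, hX]
    refine Finset.sum_congr rfl (fun x _ => ?_)
    rw [← pow_succ]
    congr 1
    omega
  set P : ℝ := ∑ i, ∑ x, mx i g x ^ (2 * k - 2) * D i g x ^ 2 with hP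
  set Q : ℝ := ∑ i, ∑ x, mx i g x ^ (2 * k - 2) * D i f x ^ 2 with hQ
  set t : ℝ := 2 / (κ * K) with ht
  have htpos : 0 < t := by rw [ht]; positivity
  have hedge : ∀ i x, D i (fun x => g x ^ (2 * k - 1)) x * D i f x ≤
      κ / 2 * (t * (mx i g x ^ (2 * k - 2) * D i g x ^ 2)
        + t⁻¹ * (mx i g x ^ (2 * k - 2) * D i f x ^ 2)) := by
    intro i x
    have h1 := abs_pow_sub_pow_le (a := g x) (b := g (flip i x)) (n := 2 * k - 1)
    have h2 : D i (fun x => g x ^ (2 * k - 1)) x * D i f x ≤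
        (|D i g x| * κ * mx i g x ^ (2 * k - 2)) * |D i f x| := by
      calc D i (fun x => g x ^ (2 * k - 1)) x * D i f x
          ≤ |D i (fun x => g x ^ (2 * k - 1)) x * D i f x| := le_abs_self _
        _ = |D i (fun x => g x ^ (2 * k - 1)) x| * |D i f x| := abs_mul _ _
        _ ≤ _ := by
            apply mul_le_mul_of_nonneg_right _ (abs_nonneg _)
            refine h1.trans (le_of_eq ?_)
            have e : ((2 * k - 1 : ℕ) : ℝ) = κ := by
              rw [hκ, Nat.cast_sub (by omega)]; push_cast; ring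
            rw [e]
            simp only [D, mx]
            congr 1
    have h3 : |D i g x| * |D i f x| ≤ (1 / 2) * (t * D i g x ^ 2 + t⁻¹ * D i f x ^ 2) := by
      have e1 : D i g x ^ 2 = |D i g x| ^ 2 := (sq_abs _).symm
      have e2 : D i f x ^ 2 = |D i f x| ^ 2 := (sq_abs _).symm
      rw [e1, e2]
      set u := |D i g x|
      set v := |D i f x|
      have : 0 ≤ t⁻¹ * (t * u - v) ^ 2 := by positivity
      have e3 : t⁻¹ * (t * u - v) ^ 2 = t * u ^ 2 - 2 * (u * v) + t⁻¹ * v ^ 2 := by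
        field_simp
        ring
      linarith
    have hmnn : 0 ≤ mx i g x ^ (2 * k - 2) := by
      unfold mx; positivity
    calc D i (fun x => g x ^ (2 * k - 1)) x * D i f x
        ≤ (|D i g x| * κ * mx i g x ^ (2 * k - 2)) * |D i f x| := h2
      _ = κ * mx i g x ^ (2 * k - 2) * (|D i g x| * |D i f x|) := by ring
      _ ≤ κ * mx i g x ^ (2 * k - 2) * ((1 / 2) * (t * D i g x ^ 2 + t⁻¹ * D i f x ^ 2)) := by
          apply mul_le_mul_of_nonneg_left h3; positivity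
      _ = _ := by ring
  have hsum : X ≤ κ / 8 * (t * P + t⁻¹ * Q) := by
    rw [hmain]
    have : ∑ i, ∑ x, D i (fun x => g x ^ (2 * k - 1)) x * D i f x ≤
        κ / 2 * (t * P + t⁻¹ * Q) := by
      rw [hP, hQ, Finset.mul_sum, Finset.mul_sum, ← Finset.sum_add_distrib, Finset.mul_sum]
      refine Finset.sum_le_sum (fun i _ => ?_)
      rw [Finset.mul_sum, Finset.mul_sum, ← Finset.sum_add_distrib, Finset.mul_sum]
      exact Finset.sum_le_sum (fun x _ => hedge i x)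
    linarith
  have hPle : P ≤ K * X := hE
  have hQle : R ^ 2 * Q ≤ K * B * (X + R ^ (2 * k) * Y) := hmix'
  have hR2k : 0 ≤ R ^ (2 * k) * Y := by positivity
  -- first term
  have t1 : κ / 8 * (t * P) ≤ X / 4 := by
    have : κ / 8 * (t * P) ≤ κ / 8 * (t * (K * X)) := by gcongr
    have e : κ / 8 * (t * (K * X)) = X / 4 := by
      rw [ht]; field_simp; ring
    linarith
  have t2 : κ / 8 * (t⁻¹ * Q) ≤ (X + R ^ (2 * k) * Y) / 4 := by
    have hti : t⁻¹ = κ * K / 2 := by rw [ht, inv_div]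
    rw [hti]
    -- Q ≤ K B (X + ..) / R^2
    have hQ2 : Q ≤ K * B * (X + R ^ (2 * k) * Y) / R ^ 2 := by
      rw [le_div_iff₀ (by positivity)]; linarith
    have hcoef : κ / 8 * (κ * K / 2) * (K * B / R ^ 2) ≤ 1 / 4 := by
      rw [hR]
      have : κ / 8 * (κ * K / 2) * (K * B / (κ * K * B / 2) ^ 2) = 1 / (4 * B) := by
        field_simp
        ring
      rw [this]
      apply one_div_le_one_div_of_le (by norm_num)
      linarith
    calc κ / 8 * (κ * K / 2 * Q) = κ / 8 * (κ * K / 2) * Q := by ring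
      _ ≤ κ / 8 * (κ * K / 2) * (K * B * (X + R ^ (2 * k) * Y) / R ^ 2) := by gcongr
      _ = (κ / 8 * (κ * K / 2) * (K * B / R ^ 2)) * (X + R ^ (2 * k) * Y) := by ring
      _ ≤ 1 / 4 * (X + R ^ (2 * k) * Y) := by
          apply mul_le_mul_of_nonneg_right hcoef; linarith
      _ = _ := by ring
  have : X ≤ X / 4 + (X + R ^ (2 * k) * Y) / 4 := by
    calc X ≤ κ / 8 * (t * P + t⁻¹ * Q) := hsum
      _ = κ / 8 * (t * P) + κ / 8 * (t⁻¹ * Q) := by ring
      _ ≤ _ := add_le_add t1 t2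
  linarith

end Pool.Agent.Helper587.MB
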