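import Mathlib

set_option autoImplicit false

/-! Fourier analysis on the Hamming cube `Fin n → Bool`, low-degree functions. -/

namespace Pool.Agent.Helper587.MB

open Finset

variable {n : ℕ}

/-- the sign of a bit -/
noncomputable def sg (b : Bool) : ℝ := if b then (1 : ℝ) else -1

/-- Walsh character -/
noncomputable def ch (S : Finset (Fin n)) (x : Fin n → Bool) : ℝ := ∏ i ∈ S, sg (x i)

/-- flip coordinate `i` -/
def flip (i : Fin n) (x : Fin n → Bool) : Fin n → Bool := Function.update x i (!x i)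

theorem flip_flip (i : Fin n) (x : Fin n → Bool) : flip i (flip i x) = x := by
  ext j
  by_cases h : j = i
  · subst h; simp [flip]
  · simp [flip, h]

theorem sg_sq (b : Bool) : sg b * sg b = 1 := by
  cases b <;> simp [sg]

theorem sg_not (b : Bool) : sg (!b) = - sg b := by
  cases b <;> simp [sg]

theorem ch_eq_prod (S : Finset (Fin n)) (x : Fin n → Bool) :
    ch S x = ∏ i, (if i ∈ S then sg (x i) else 1) := by
  unfold ch
  rw [Finset.prod_ite_mem, Finset.univ_inter]

theorem ch_mul (S T : Finset (Fin n)) (x : Fin n → Bool) :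
    ch S x * ch T x = ch (symmDiff S T) x := by
  rw [ch_eq_prod, ch_eq_prod, ch_eq_prod, ← Finset.prod_mul_distrib]
  apply Finset.prod_congr rfl
  intro i _
  by_cases h1 : i ∈ S <;> by_cases h2 : i ∈ T <;> simp [Finset.mem_symmDiff, h1, h2, sg_sq]

theorem sum_ch (U : Finset (Fin n)) :
    ∑ x, ch U x = if U = ∅ then (2 : ℝ) ^ n else 0 := by
  have h1 : ∑ x : Fin n → Bool, ch U x
      = ∏ i : Fin n, ∑ b : Bool, (if i ∈ U then sg b else 1) := by
    rw [Finset.prod_univ_sum]
    rw [Fintype.piFinset_univ]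
    exact Finset.sum_congr rfl (fun x _ => ch_eq_prod U x)
  rw [h1]
  split_ifs with h
  · subst h
    simp
  · obtain ⟨i, hi⟩ := Finset.nonempty_iff_ne_empty.mpr h
    apply Finset.prod_eq_zero (Finset.mem_univ i)
    simp [hi, sg]

theorem sum_ch_mul (S T : Finset (Fin n)) :
    ∑ x, ch S x * ch T x = if S = T then (2 : ℝ) ^ n else 0 := by
  simp_rw [ch_mul]
  rw [sum_ch]
  by_cases h : S = T
  · simp [h]
  · have : symmDiff S T ≠ ∅ := by
      intro h'
      exact h (symmDiff_eq_bot.mp h')
    simp [h, this]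

/-- The function with Walsh coefficients `c`. -/
noncomputable def fn (c : Finset (Fin n) → ℝ) (x : Fin n → Bool) : ℝ := ∑ S, c S * ch S x

theorem parseval (c : Finset (Fin n) → ℝ) :
    ∑ x, fn c x ^ 2 = 2 ^ n * ∑ S, c S ^ 2 := by
  have h1 : ∀ x, fn c x ^ 2 = ∑ S, ∑ T, c S * c T * (ch S x * ch T x) := by
    intro x
    rw [sq, fn, Finset.sum_mul_sum]
    refine Finset.sum_congr rfl (fun S _ => Finset.sum_congr rfl (fun T _ => by ring))
  simp_rw [h1]
  rw [Finset.sum_comm]
  rw [Finset.mul_sum]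
  refine Finset.sum_congr rfl (fun S _ => ?_)
  rw [Finset.sum_comm]
  simp_rw [← Finset.mul_sum, sum_ch_mul]
  simp only [mul_ite, mul_zero]
  rw [Finset.sum_ite_eq]
  simp
  ring

theorem ch_flip (S : Finset (Fin n)) (i : Fin n) (x : Fin n → Bool) :
    ch S (flip i x) = if i ∈ S then - ch S x else ch S x := by
  rw [ch_eq_prod, ch_eq_prod]
  by_cases h : i ∈ S
  · rw [if_pos h, ← Finset.mul_prod_erase _ _ (Finset.mem_univ i),
      ← Finset.mul_prod_erase (a := i) _ (fun j => if j ∈ S then sg (x j) else 1)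
        (Finset.mem_univ i)]
    have : ∏ j ∈ Finset.univ.erase i, (if j ∈ S then sg (flip i x j) else 1)
        = ∏ j ∈ Finset.univ.erase i, (if j ∈ S then sg (x j) else 1) := by
      refine Finset.prod_congr rfl (fun j hj => ?_)
      have hji : j ≠ i := Finset.ne_of_mem_erase hj
      simp [flip, hji]
    rw [this]
    simp [h, flip, sg_not]
  · rw [if_neg h]
    refine Finset.prod_congr rfl (fun j _ => ?_)
    by_cases hji : j = i
    · subst hji; simp [h]
    · simp [flip, hji]

/-- difference in direction `i` -/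
noncomputable def D (i : Fin n) (g : (Fin n → Bool) → ℝ) (x : Fin n → Bool) : ℝ :=
  g x - g (flip i x)

/-- max of the two endpoint absolute values -/
noncomputable def mx (i : Fin n) (g : (Fin n → Bool) → ℝ) (x : Fin n → Bool) : ℝ :=
  max |g x| |g (flip i x)|

theorem D_fn (i : Fin n) (c : Finset (Fin n) → ℝ) (x : Fin n → Bool) :
    D i (fn c) x = fn (fun S => if i ∈ S then 2 * c S else 0) x := by
  unfold D fn
  rw [← Finset.sum_sub_distrib]
  refine Finset.sum_congr rfl (fun S _ => ?_)
  rw [ch_flip]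
  by_cases h : i ∈ S
  · simp only [h, if_true]; ring
  · simp only [h, if_false]; ring

/-- number operator on coefficients -/
def num (c : Finset (Fin n) → ℝ) : Finset (Fin n) → ℝ := fun S => (S.card : ℝ) * c S

theorem sum_D_fn (c : Finset (Fin n) → ℝ) (x : Fin n → Bool) :
    ∑ i, D i (fn c) x = 2 * fn (num c) x := by
  simp_rw [D_fn]
  unfold fn
  rw [Finset.sum_comm, Finset.mul_sum]
  refine Finset.sum_congr rfl (fun S _ => ?_)
  rw [← Finset.sum_mul]
  have : ∑ i : Fin n, (if i ∈ S then 2 * c S else 0) = 2 * ((S.card : ℝ) * c S) := by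
    rw [Finset.sum_ite_mem, Finset.univ_inter, Finset.sum_const, nsmul_eq_mul]; ring
  rw [this]
  simp only [num]; ring

theorem sum_flip (i : Fin n) (F : (Fin n → Bool) → ℝ) :
    ∑ x, F (flip i x) = ∑ x, F x := by
  apply Fintype.sum_equiv (Function.Involutive.toPerm (flip i) (flip_flip i))
  intro x
  rfl

theorem D_flip (i : Fin n) (g : (Fin n → Bool) → ℝ) (x : Fin n → Bool) :
    D i g (flip i x) = - D i g x := by
  unfold D; rw [flip_flip]; ring

theorem sum_mul_D (i : Fin n) (v u : (Fin n → Bool) → ℝ) :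
    ∑ x, v x * D i u x = (1 / 2) * ∑ x, D i v x * D i u x := by
  have h := sum_flip i (fun x => v x * D i u x)
  simp only [D_flip] at h
  have h2 : ∑ x, D i v x * D i u x = ∑ x, v x * D i u x - ∑ x, v (flip i x) * D i u x := by
    rw [← Finset.sum_sub_distrib]
    refine Finset.sum_congr rfl (fun x _ => ?_)
    unfold D; ring
  have h3 : ∑ x, v (flip i x) * D i u x = - ∑ x, v x * D i u x := by
    rw [← h, ← Finset.sum_neg_distrib]
    refine Finset.sum_congr rfl (fun x _ => by ring)
  rw [h2, h3]; ring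

/-- integration by parts on the cube -/
theorem ibp (v : (Fin n → Bool) → ℝ) (c : Finset (Fin n) → ℝ) :
    ∑ x, v x * fn (num c) x = (1 / 4) * ∑ i, ∑ x, D i v x * D i (fn c) x := by
  have h : ∀ x, v x * fn (num c) x = (1 / 2) * ∑ i, v x * D i (fn c) x := by
    intro x
    rw [← Finset.mul_sum, sum_D_fn]; ring
  simp_rw [h]
  rw [← Finset.mul_sum, Finset.sum_comm]
  have h2 : ∀ i : Fin n, ∑ x, v x * D i (fn c) x = (1 / 2) * ∑ x, D i v x * D i (fn c) x :=
    fun i => sum_mul_D i v (fn c)
  rw [Finset.sum_congr rfl (fun i _ => h2 i), ← Finset.mul_sum]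
  ring

/-- degree at most `d` -/
def HasDeg (d : ℕ) (g : (Fin n → Bool) → ℝ) : Prop :=
  ∃ c : Finset (Fin n) → ℝ, (∀ S, d < S.card → c S = 0) ∧ g = fn c

/-- the energy inequality -/
theorem energy {d : ℕ} {g : (Fin n → Bool) → ℝ} (hg : HasDeg d g) :
    ∑ i, ∑ x, D i g x ^ 2 ≤ 4 * d * ∑ x, g x ^ 2 := by
  obtain ⟨c, hc, rfl⟩ := hg
  simp_rw [D_fn, parseval]
  rw [← Finset.mul_sum, Finset.sum_comm]
  have h : ∀ S : Finset (Fin n), ∑ i : Fin n, (if i ∈ S then 2 * c S else 0) ^ 2
      = 4 * (S.card : ℝ) * c S ^ 2 := by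
    intro S
    have : ∀ i : Fin n, (if i ∈ S then 2 * c S else 0) ^ 2
        = if i ∈ S then (2 * c S) ^ 2 else 0 := by
      intro i; split_ifs <;> simp
    simp_rw [this]
    rw [Finset.sum_ite_mem, Finset.univ_inter, Finset.sum_const, nsmul_eq_mul]; ring
  simp_rw [h]
  rw [mul_left_comm]
  apply mul_le_mul_of_nonneg_left _ (by positivity)
  rw [Finset.mul_sum]
  apply Finset.sum_le_sum
  intro S _
  by_cases hS : d < S.card
  · simp [hc S hS]
  · have : (S.card : ℝ) ≤ d := by exact_mod_cast not_lt.mp hS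
    have h2 : 0 ≤ c S ^ 2 := by positivity
    nlinarith

theorem HasDeg.mono {d e : ℕ} {g : (Fin n → Bool) → ℝ} (hg : HasDeg d g) (h : d ≤ e) :
    HasDeg e g := by
  obtain ⟨c, hc, rfl⟩ := hg
  exact ⟨c, fun S hS => hc S (lt_of_le_of_lt h hS), rfl⟩

theorem HasDeg.add {d : ℕ} {g h : (Fin n → Bool) → ℝ} (hg : HasDeg d g) (hh : HasDeg d h) :
    HasDeg d (fun x => g x + h x) := by
  obtain ⟨c, hc, rfl⟩ := hg
  obtain ⟨c', hc', rfl⟩ := hh
  refine ⟨fun S => c S + c' S, fun S hS => by simp [hc S hS, hc' S hS], ?_⟩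
  ext x
  simp only [fn]
  rw [← Finset.sum_add_distrib]
  exact Finset.sum_congr rfl (fun S _ => by ring)

theorem HasDeg.smul {d : ℕ} {g : (Fin n → Bool) → ℝ} (r : ℝ) (hg : HasDeg d g) :
    HasDeg d (fun x => r * g x) := by
  obtain ⟨c, hc, rfl⟩ := hg
  refine ⟨fun S => r * c S, fun S hS => by simp [hc S hS], ?_⟩
  ext x
  simp only [fn]
  rw [Finset.mul_sum]
  exact Finset.sum_congr rfl (fun S _ => by ring)

theorem HasDeg.one : HasDeg 0 (fun _ : Fin n → Bool => (1 : ℝ)) := by
  refine ⟨fun S => if S = ∅ then 1 else 0, fun S hS => ?_, ?_⟩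
  · have : S ≠ ∅ := by
      intro h; simp [h] at hS
    simp [this]
  · ext x
    simp [fn, ch]

theorem card_symmDiff_le' (S T : Finset (Fin n)) : (symmDiff S T).card ≤ S.card + T.card := by
  calc (symmDiff S T).card ≤ (S ∪ T).card := by
        apply Finset.card_le_card
        intro x hx
        rw [Finset.mem_symmDiff] at hx
        rw [Finset.mem_union]
        tauto
    _ ≤ _ := Finset.card_union_le _ _

theorem HasDeg.mul {d e : ℕ} {g h : (Fin n → Bool) → ℝ} (hg : HasDeg d g) (hh : HasDeg e h) :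
    HasDeg (d + e) (fun x => g x * h x) := by
  obtain ⟨c, hc, rfl⟩ := hg
  obtain ⟨c', hc', rfl⟩ := hh
  refine ⟨fun U => ∑ S, c S * c' (symmDiff S U), fun U hU => ?_, ?_⟩
  · apply Finset.sum_eq_zero
    intro S _
    by_cases hS : d < S.card
    · simp [hc S hS]
    · have : e < (symmDiff S U).card := by
        have h1 : U.card ≤ S.card + (symmDiff S U).card := by
          have := card_symmDiff_le' S (symmDiff S U)
          rwa [symmDiff_symmDiff_cancel_left] at this
        omega
      simp [hc' _ this]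
  · ext x
    simp only [fn]
    rw [Finset.sum_mul_sum]
    simp_rw [Finset.sum_mul]
    rw [Finset.sum_comm (s := (Finset.univ : Finset (Finset (Fin n))))
      (t := (Finset.univ : Finset (Finset (Fin n))))
      (f := fun U S => c S * c' (symmDiff S U) * ch U x)]
    refine Finset.sum_congr rfl (fun S _ => ?_)
    have hinv : Function.Involutive (fun U : Finset (Fin n) => symmDiff S U) := by
      intro U; exact symmDiff_symmDiff_cancel_left S U
    rw [← Equiv.sum_comp (Function.Involutive.toPerm _ hinv)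
      (fun U => c S * c' (symmDiff S U) * ch U x)]
    refine Finset.sum_congr rfl (fun T _ => ?_)
    simp only [Function.Involutive.coe_toPerm]
    rw [symmDiff_symmDiff_cancel_left, ← ch_mul]
    ring

theorem HasDeg.pow {d : ℕ} {g : (Fin n → Bool) → ℝ} (hg : HasDeg d g) (k : ℕ) :
    HasDeg (k * d) (fun x => g x ^ k) := by
  induction k with
  | zero => simpa using HasDeg.one
  | succ k ih =>
    have := ih.mul hg
    simp only [pow_succ]
    rw [Nat.succ_mul]
    exact this

end Pool.Agent.Helper587.MB
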