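import Pool.Agent.Helper587.MB.Closing

set_option autoImplicit false

/-! The weighted energy bound for odd `k` (exponent `p = 2k`). -/

namespace Pool.Agent.Helper587.MB

open Finset

variable {n : ℕ}

theorem odd_ineq_aux (m : ℕ) (a b : ℝ) (ha : 0 ≤ a) (hab : |b| ≤ a) :
    a ^ (2 * m) * |a - b| ≤ 2 * |a ^ (2 * m + 1) - b ^ (2 * m + 1)| := by
  have hb1 : b ≤ a := (le_abs_self b).trans hab
  have hb2 : -a ≤ b := by
    have := neg_abs_le b; linarith
  have ha2 : 0 ≤ a ^ (2 * m) := by positivity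
  have habs : |a - b| = a - b := abs_of_nonneg (by linarith)
  rw [habs]
  rcases le_or_gt 0 b with hb | hb
  · have h1 : b ^ (2 * m) ≤ a ^ (2 * m) := pow_le_pow_left₀ hb hb1 _
    have h2 : a ^ (2 * m) * (a - b) ≤ a ^ (2 * m + 1) - b ^ (2 * m + 1) := by
      have : b ^ (2 * m + 1) ≤ a ^ (2 * m) * b := by
        rw [pow_succ]; exact mul_le_mul_of_nonneg_right h1 hb
      rw [pow_succ a]; linarith
    have h3 : 0 ≤ a ^ (2 * m) * (a - b) := mul_nonneg ha2 (by linarith)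
    have h4 := le_abs_self (a ^ (2 * m + 1) - b ^ (2 * m + 1))
    linarith
  · have h1 : b ^ (2 * m + 1) ≤ 0 := by
      have : b ^ (2 * m + 1) = b ^ (2 * m) * b := pow_succ b _
      rw [this]
      apply mul_nonpos_of_nonneg_of_nonpos _ hb.le
      rw [pow_mul]; positivity
    have h2 : a ^ (2 * m) * (a - b) ≤ 2 * a ^ (2 * m + 1) := by
      rw [pow_succ]
      have : a ^ (2 * m) * (a - b) ≤ a ^ (2 * m) * (2 * a) :=
        mul_le_mul_of_nonneg_left (by linarith) ha2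
      linarith
    have h4 := le_abs_self (a ^ (2 * m + 1) - b ^ (2 * m + 1))
    linarith

theorem odd_ineq_aux2 (m : ℕ) (a b : ℝ) (hab : |b| ≤ |a|) :
    |a| ^ (2 * m) * |a - b| ≤ 2 * |a ^ (2 * m + 1) - b ^ (2 * m + 1)| := by
  rcases le_total 0 a with ha | ha
  · rw [abs_of_nonneg ha] at hab ⊢
    exact odd_ineq_aux m a b ha hab
  · have h := odd_ineq_aux m (-a) (-b) (by linarith) (by rw [abs_neg, ← abs_of_nonpos ha]; exact hab)
    rw [abs_of_nonpos ha]
    have e1 : |(-a) - (-b)| = |a - b| := by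
      rw [← abs_neg (a - b)]; congr 1; ring
    have hodd : Odd (2 * m + 1) := ⟨m, rfl⟩
    have e2 : |(-a) ^ (2 * m + 1) - (-b) ^ (2 * m + 1)| = |a ^ (2 * m + 1) - b ^ (2 * m + 1)| := by
      rw [hodd.neg_pow, hodd.neg_pow, ← abs_neg (a ^ (2 * m + 1) - b ^ (2 * m + 1))]
      congr 1; ring
    rw [e1, e2] at h
    exact h

theorem odd_ineq (m : ℕ) (a b : ℝ) :
    (max |a| |b|) ^ (2 * m) * |a - b| ≤ 2 * |a ^ (2 * m + 1) - b ^ (2 * m + 1)| := by
  rcases le_total |b| |a| with h | h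
  · rw [max_eq_left h]; exact odd_ineq_aux2 m a b h
  · rw [max_eq_right h]
    have := odd_ineq_aux2 m b a h
    rwa [abs_sub_comm b a, abs_sub_comm (b ^ (2 * m + 1))] at this

theorem good_odd (n d m : ℕ) : Good n d (2 * m + 1) (16 * ((2 * m + 1 : ℕ) * d)) := by
  intro h hh
  have hE := energy (hh.pow (2 * m + 1))
  have hle : ∑ i, ∑ x, mx i h x ^ (2 * (2 * m + 1) - 2) * D i h x ^ 2 ≤
      4 * ∑ i, ∑ x, D i (fun x => h x ^ (2 * m + 1)) x ^ 2 := by
    rw [Finset.mul_sum]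
    refine Finset.sum_le_sum (fun i _ => ?_)
    rw [Finset.mul_sum]
    refine Finset.sum_le_sum (fun x _ => ?_)
    have h1 := odd_ineq m (h x) (h (flip i x))
    have h2 : 0 ≤ (max |h x| |h (flip i x)|) ^ (2 * m) * |h x - h (flip i x)| := by positivity
    have h3 := pow_le_pow_left₀ h2 h1 2
    have e1 : 2 * (2 * m + 1) - 2 = (2 * m) * 2 := by omega
    rw [e1]
    simp only [mx, D]
    rw [mul_pow, sq_abs, ← pow_mul, mul_pow, sq_abs] at h3
    calc _ ≤ _ := h3
      _ = _ := by norm_num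
  calc _ ≤ _ := hle
    _ ≤ 4 * (4 * ((2 * m + 1) * d : ℕ) * ∑ x, (h x ^ (2 * m + 1)) ^ 2) := by gcongr
    _ = _ := by
      have : ∀ x, (h x ^ (2 * m + 1)) ^ 2 = h x ^ (2 * (2 * m + 1)) := by
        intro x; rw [← pow_mul]; congr 1; ring
      simp_rw [this]
      push_cast; ring

end Pool.Agent.Helper587.MB
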